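import Pool.Agent.Work.MP_d62ce9_gt.Transfer

/-!
# MP_d62ce9_gt, Q1: negative answer in every dimension `n ≥ 3`

For every `n ≥ 3` there is a discrete, torsion-free, finitely generated group `G` of isometries of
hyperbolic `n`-space (in fact free on two generators), all of whose abelian subgroups are cyclic,
whose conical limit set has Hausdorff dimension `< 1`, and which is not of classical Schottky type.

Construction. In upper half-space coordinates let `g` be the parabolic isometry
`X ↦ U X + (5/4) e - 101 f`, where `e ⟂ f` are horizontal unit vectors and `U` is the identity on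
`ℝ e` and `-1` on the orthogonal complement of `e`; let `J` be the isometric involution which is the
inversion composed with the reflection exchanging `e` and `f`. Then `G = ⟨g, J g J⟩`.
-/

set_option autoImplicit false

namespace Pool.Agent.Results.MP_d62ce9_gt.NonClassicalFree

open Pool.Agent.Work.MP_d62ce9_gt

/-- Negative answer to Q1 in every dimension `n ≥ 3`. -/
theorem result : ∀ n : ℕ, 3 ≤ n → ∃ G : Subgroup (Equiv.Perm (Mink n)),
    (∀ A ∈ G, IsIsometryH A) ∧ IsDiscreteGrp G ∧
    (∀ A ∈ G, ∀ m : ℕ, m ≠ 0 → A ^ m = 1 → A = 1) ∧ G.FG ∧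
    Nonempty (FreeGroup Bool ≃* G) ∧
    (∀ K : Subgroup (Equiv.Perm (Mink n)), K ≤ G → (∀ A ∈ K, ∀ B ∈ K, A * B = B * A) →
      IsCyclic K) ∧
    dimH (conicalSet G) < 1 ∧ ¬ IsClassicalSchottky G :=
  fun _ hn => main hn

end Pool.Agent.Results.MP_d62ce9_gt.NonClassicalFree
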